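import Pool.Agent.Y377.IL.Stm

/-!
# Job 4204 (IL-RC): specialisation of rational curves

The coefficients of a polynomial curve over a field `M` generate an algebra of finite type over the complex numbers; by
the Nullstellensatz it has a point at which a given nonzero element does not vanish.
-/

set_option autoImplicit false

open MvPolynomial

namespace Pool.Agent.Y737.IL

/-- a point of an algebra of finite type at which a given element does not vanish -/
theorem exists_pt (A : Type*) [CommRing A] [IsDomain A] [Algebra ℂ A] [Algebra.FiniteType ℂ A] (f : A) (hf : f ≠ 0) :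
    ∃ h : A →ₐ[ℂ] ℂ, h f ≠ 0 := by
  have hJ : IsJacobsonRing A := isJacobsonRing_of_finiteType (A := ℂ)
  have h1 : (⊥ : Ideal A).jacobson = ⊥ := hJ.out (Ideal.isPrime_bot (α := A)).isRadical
  have h2 : f ∉ (⊥ : Ideal A).jacobson := by
    rw [h1]
    simpa using hf
  rw [Ideal.jacobson, Submodule.mem_sInf] at h2
  push Not at h2
  obtain ⟨m, ⟨-, hm⟩, hfm⟩ := h2
  let F := A ⧸ m
  let _ : Field F := Ideal.Quotient.field m
  have hF : Algebra.FiniteType ℂ F := Algebra.FiniteType.of_surjective (Ideal.Quotient.mkₐ ℂ m)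
    Ideal.Quotient.mk_surjective
  have hfin : Module.Finite ℂ F := finite_of_finite_type_of_isJacobsonRing ℂ F
  have hbij : Function.Bijective (algebraMap ℂ F) := IsAlgClosed.algebraMap_bijective_of_isIntegral
  let e : ℂ ≃ₐ[ℂ] F := AlgEquiv.ofBijective (Algebra.ofId ℂ F) hbij
  refine ⟨(e.symm : F →ₐ[ℂ] ℂ).comp (Ideal.Quotient.mkₐ ℂ m), ?_⟩
  intro h0
  have h3 : e.symm (Ideal.Quotient.mk m f) = 0 := h0
  rw [EmbeddingLike.map_eq_zero_iff, Ideal.Quotient.eq_zero_iff_mem] at h3
  exact hfm h3

theorem t_RC : Pool.Agent.Y377.IL.S_RC := by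
  classical
  intro N I G' _ hyp M _ _ P hP ⟨j, k, hjk⟩
  by_contra hG
  -- the algebra of the coefficients
  let s : Finset M := Finset.univ.biUnion fun l : Fin (N + 1) => (P l).coeffs
  let A : Subalgebra ℂ M := Algebra.adjoin ℂ (s : Set M)
  have hft : Algebra.FiniteType ℂ A := A.fg_iff_finiteType.1 (Subalgebra.fg_adjoin_finset s)
  have hcoef : ∀ l i, (P l).coeff i ∈ A := by
    intro l i
    by_cases h0 : (P l).coeff i = 0
    · rw [h0]
      exact A.zero_mem
    · refine Algebra.subset_adjoin ?_
      rw [Finset.mem_coe, Finset.mem_biUnion]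
      exact ⟨l, Finset.mem_univ _, Polynomial.coeff_mem_coeffs h0⟩
  have hl : ∀ l, ∃ q : Polynomial A, q.map (A.val : A →+* M) = P l := by
    intro l
    rw [← Polynomial.mem_lifts, Polynomial.lifts_iff_coeff_lifts]
    intro i
    exact ⟨⟨_, hcoef l i⟩, rfl⟩
  choose P0 hP0 using hl
  have hinj : Function.Injective (Polynomial.map (A.val : A →+* M)) :=
    Polynomial.map_injective _ Subtype.val_injective
  have hev : ∀ G : MvPolynomial (Fin (N + 1)) ℂ, (aeval P0 G).map (A.val : A →+* M) = aeval P G := by
    intro G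
    have h1 := comp_aeval_apply (f := P0) (Polynomial.mapAlgHom A.val) G
    have h2 : (fun i => Polynomial.mapAlgHom A.val (P0 i)) = P := funext hP0
    rw [h2] at h1
    exact h1
  -- the nonzero coefficients
  have hg : ∃ n, (aeval P0 G' : Polynomial A).coeff n ≠ 0 := by
    by_contra hcon
    push Not at hcon
    apply hG
    have h1 : (aeval P0 G' : Polynomial A) = 0 := Polynomial.ext fun n => by rw [hcon n, Polynomial.coeff_zero]
    rw [← hev, h1, Polynomial.map_zero]
  obtain ⟨n, hn⟩ := hg
  have hw : ∃ n', (Polynomial.derivative (P0 j) * P0 k - P0 j * Polynomial.derivative (P0 k)).coeff n' ≠ 0 := by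
    by_contra hcon
    push Not at hcon
    apply hjk
    have h1 : Polynomial.derivative (P0 j) * P0 k - P0 j * Polynomial.derivative (P0 k) = 0 :=
      Polynomial.ext fun n => by rw [hcon n, Polynomial.coeff_zero]
    have h2 := congrArg (Polynomial.map (A.val : A →+* M)) (sub_eq_zero.1 h1)
    rw [Polynomial.map_mul, Polynomial.map_mul, ← Polynomial.derivative_map, ← Polynomial.derivative_map, hP0,
      hP0] at h2
    exact h2
  obtain ⟨n', hn'⟩ := hw
  obtain ⟨h, hh⟩ := exists_pt A _ (mul_ne_zero hn hn')
  rw [map_mul] at hh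
  have hh1 := left_ne_zero_of_mul hh
  have hh2 := right_ne_zero_of_mul hh
  -- the curve over the complex numbers
  have hevh : ∀ G : MvPolynomial (Fin (N + 1)) ℂ,
      aeval (fun l => (P0 l).map (h : A →+* ℂ)) G = (aeval P0 G).map (h : A →+* ℂ) := by
    intro G
    exact (comp_aeval_apply (f := P0) (Polynomial.mapAlgHom h) G).symm
  have hfin := hyp (fun l => (P0 l).map (h : A →+* ℂ)) (by
    intro G hGI hGh
    have h1 : (aeval P0 G : Polynomial A) = 0 := by
      apply hinj
      rw [hev, hP G hGI hGh, Polynomial.map_zero]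
    rw [hevh, h1, Polynomial.map_zero]) ⟨j, k, fun hc => hh2 (by
      have h1 : ((Polynomial.derivative (P0 j) * P0 k - P0 j * Polynomial.derivative (P0 k)).map
          (h : A →+* ℂ)) = 0 := by
        rw [Polynomial.map_sub, Polynomial.map_mul, Polynomial.map_mul, ← Polynomial.derivative_map,
          ← Polynomial.derivative_map, hc, sub_self]
      have h2 := congrArg (fun q : Polynomial ℂ => q.coeff n') h1
      simp only [Polynomial.coeff_map, Polynomial.coeff_zero] at h2
      exact h2)⟩
  apply hh1
  rw [hevh] at hfin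
  have h2 := congrArg (fun q : Polynomial ℂ => q.coeff n) hfin
  simp only [Polynomial.coeff_map, Polynomial.coeff_zero] at h2
  exact h2

end Pool.Agent.Y737.IL
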